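import Pool.Agent.Helper90.TS.Stmts

/-! # MP_79eb7e_lc: module LP (the main lemma) -/

set_option autoImplicit false

namespace Pool.Agent.Helper90.TS

variable {V G : Type} [Group G] [MulAction G V]

theorem lp_ini {d d' : ℕ → V} {n : ℕ} (h : ∀ i < n, d i = d' i) : ini d n = ini d' n := by
  ext x
  constructor
  · rintro ⟨i, hi, rfl⟩
    exact ⟨i, hi, (h i hi).symm⟩
  · rintro ⟨i, hi, rfl⟩
    exact ⟨i, hi, h i hi⟩

/-- independence of initial segments -/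
def lpQ (X : Ctx V G) (A : Set V) (n m : ℕ) (d0 d1 : ℕ → V) : Prop :=
  SI X (A ∪ (ini d0 n ∪ ini d1 n)) (ini d0 m) (ini d1 m)

theorem lp_q_congr (X : Ctx V G) (A : Set V) {n m N : ℕ} (hn : n ≤ N) (hm : m ≤ N)
    {d0 d1 d0' d1' : ℕ → V} (h0 : ∀ i < N, d0 i = d0' i) (h1 : ∀ i < N, d1 i = d1' i) :
    lpQ X A n m d0 d1 ↔ lpQ X A n m d0' d1' := by
  unfold lpQ
  rw [lp_ini (d := d0) (d' := d0') (n := n) (fun i hi => h0 i (by omega)),
    lp_ini (d := d0) (d' := d0') (n := m) (fun i hi => h0 i (by omega)),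
    lp_ini (d := d1) (d' := d1') (n := n) (fun i hi => h1 i (by omega)),
    lp_ini (d := d1) (d' := d1') (n := m) (fun i hi => h1 i (by omega))]

theorem lp_fin {A : Set V} (hA : A.Finite) (n : ℕ) (d0 d1 : ℕ → V) :
    (A ∪ (ini d0 n ∪ ini d1 n)).Countable :=
  (hA.union ((ini_finite d0 n).union (ini_finite d1 n))).countable

theorem lp_q_tr (hC : ST_CALC) (X : Ctx V G) {A : Set V} (hA : A.Finite) (n m : ℕ)
    {d0 d1 d0' d1' : ℕ → V} {g : G} (hg : g ∈ Fx G A) (h0 : ∀ i, g • d0 i = d0' i)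
    (h1 : ∀ i, g • d1 i = d1' i) : lpQ X A n m d0' d1' ↔ lpQ X A n m d0 d1 := by
  have h := (hC V G X (A ∪ (ini d0 n ∪ ini d1 n)) (ini d0 m) (ini d1 m) ∅ (lp_fin hA n d0 d1)
    (ini_finite d0 m).countable (ini_finite d1 m).countable Set.countable_empty).2.2.2.2.2 g
  have e0 : (fun i => g • d0 i) = d0' := funext h0
  have e1 : (fun i => g • d1 i) = d1' := funext h1
  rw [tr_union, tr_union, tr_fx hg, tr_ini, tr_ini, tr_ini, tr_ini, e0, e1] at h
  exact h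

/-- monotonicity of independence -/
theorem lp_mono (hC : ST_CALC) (X : Ctx V G) {A B C B0 C0 : Set V} (hA : A.Countable)
    (hB : B.Countable) (hCc : C.Countable) (h : SI X A B C) (hB0 : B0 ⊆ B) (hC0 : C0 ⊆ C) :
    SI X A B0 C0 := by
  have h1 := (hC V G X A B C0 C hA hB (hCc.mono hC0) hCc).2.1
  rw [Set.union_eq_self_of_subset_left hC0] at h1
  have h2 := (h1.1 h).1
  intro n b hb
  exact h2 n b (hb.trans hB0)

theorem lp_bound {d : ℕ → V} {S : Set V} (hS : S.Finite) (h : S ⊆ Set.range d) :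
    ∃ m, S ⊆ ini d m := by
  induction S, hS using Set.Finite.induction_on with
  | empty => exact ⟨0, Set.empty_subset _⟩
  | @insert a s _ _ ih =>
    obtain ⟨m, hm⟩ := ih ((Set.subset_insert a s).trans h)
    obtain ⟨i, hi⟩ := h (Set.mem_insert a s)
    refine ⟨max m (i + 1), ?_⟩
    intro x hx
    rcases hx with rfl | hx
    · exact ⟨i, lt_of_lt_of_le (Nat.lt_succ_self i) (le_max_right _ _), hi⟩
    · exact ini_mono (le_max_left _ _) (hm hx)

/-- finite character -/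
theorem lp_char (hC : ST_CALC) (X : Ctx V G) {A : Set V} (hA : A.Countable) (δ0 δ1 : ℕ → V)
    (h : ¬ SI X A (Set.range δ0) (Set.range δ1)) : ∃ m, ¬ SI X A (ini δ0 m) (ini δ1 m) := by
  by_contra hcon
  push Not at hcon
  apply h
  have h4 := (hC V G X A (Set.range δ0) (Set.range δ1) ∅ hA (Set.countable_range _)
    (Set.countable_range _) Set.countable_empty).2.2.2.1
  apply h4
  intro B0 C0 hB0 hC0 hB0f hC0f
  obtain ⟨m0, hm0⟩ := lp_bound hB0f hB0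
  obtain ⟨m1, hm1⟩ := lp_bound hC0f hC0
  exact lp_mono hC X hA (ini_finite δ0 (max m0 m1)).countable
    (ini_finite δ1 (max m0 m1)).countable (hcon (max m0 m1))
    (hm0.trans (ini_mono (le_max_left _ _))) (hm1.trans (ini_mono (le_max_right _ _)))

theorem lp_sqeq_ini {A : Set V} {d δ : ℕ → V} {n : ℕ} (h : SqEq G (A ∪ ini d n) d δ) :
    ∀ i < n, d i = δ i := by
  obtain ⟨g, hg, h⟩ := h
  intro i hi
  rw [← h i]
  exact (hg (d i) (Or.inr ⟨i, hi, rfl⟩)).symm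

/-- one step of the construction -/
theorem lp_step (hC : ST_CALC) (hE : ST_EXTS) (X : Ctx V G) {A : Set V} (hA : A.Finite)
    (n : ℕ) (d0 d1 T0 T1 : ℕ → V)
    (hdep : ∃ δ0 δ1, SqEq G (A ∪ ini d0 n) d0 δ0 ∧ SqEq G (A ∪ ini d1 n) d1 δ1 ∧
      ¬ SI X (A ∪ (ini d0 n ∪ ini d1 n)) (Set.range δ0) (Set.range δ1)) :
    ∃ (δ0 δ1 : ℕ → V) (m : ℕ), SqEq G (A ∪ ini d0 n) d0 δ0 ∧ SqEq G (A ∪ ini d1 n) d1 δ1 ∧
      (lpQ X A n m δ0 δ1 ↔ ¬ lpQ X A n m T0 T1) := by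
  have hcnt := lp_fin hA n d0 d1
  obtain ⟨δ0, δ1, h0, h1, hns⟩ := hdep
  obtain ⟨m, hm⟩ := lp_char hC X hcnt δ0 δ1 hns
  by_cases hT : lpQ X A n m T0 T1
  · refine ⟨δ0, δ1, m, h0, h1, ?_⟩
    have h2 : ¬ lpQ X A n m δ0 δ1 := by
      unfold lpQ
      rw [← lp_ini (lp_sqeq_ini h0), ← lp_ini (lp_sqeq_ini h1)]
      exact hm
    exact ⟨fun h => absurd h h2, fun h => absurd hT h⟩
  · obtain ⟨g, hg, hs⟩ := hE V G X (A ∪ (ini d0 n ∪ ini d1 n)) (Set.range d0) (Set.range d1)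
      hcnt (Set.countable_range _) (Set.countable_range _)
    have e0 : SqEq G (A ∪ ini d0 n) d0 (fun i => g • d0 i) := by
      refine ⟨g, fx_anti ?_ hg, fun i => rfl⟩
      intro x hx
      rcases hx with hx | hx
      · exact Or.inl hx
      · exact Or.inr (Or.inl hx)
    refine ⟨fun i => g • d0 i, d1, m, e0, sqeq_refl _ _, ?_⟩
    have h3 : lpQ X A n m (fun i => g • d0 i) d1 := by
      unfold lpQ
      rw [← lp_ini (lp_sqeq_ini e0)]
      rw [tr_range] at hs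
      exact lp_mono hC X hcnt (Set.countable_range _) (Set.countable_range _) hs
        (ini_subset (fun i => g • d0 i) m) (ini_subset d1 m)
    exact ⟨fun _ => hT, fun _ => h3⟩

/-- the diagonal argument -/
theorem lp_diag (hC : ST_CALC) (hE : ST_EXTS) (hT : ST_TYPS) (X : Ctx V G) {A : Set V}
    (hA : A.Finite) (d : ℕ → V) (hd : Small G d) (I : Set ℕ) (hI : ∀ N, ∃ n ∈ I, N ≤ n)
    (hdep : ∀ n ∈ I, ∀ d0 d1, SqEq G A d d0 → SqEq G A d d1 →
      ∃ δ0 δ1, SqEq G (A ∪ ini d0 n) d0 δ0 ∧ SqEq G (A ∪ ini d1 n) d1 δ1 ∧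
        ¬ SI X (A ∪ (ini d0 n ∪ ini d1 n)) (Set.range δ0) (Set.range δ1)) : False := by
  obtain ⟨T, hT0⟩ := hd A hA
  let St : Type := {s : (ℕ → V) × (ℕ → V) × ℕ // SqEq G A d s.1 ∧ SqEq G A d s.2.1 ∧ s.2.2 ∈ I}
  have step : ∀ (k : ℕ) (s : St), ∃ s' : St, (∀ i < s.1.2.2, s.1.1 i = s'.1.1 i) ∧
      (∀ i < s.1.2.2, s.1.2.1 i = s'.1.2.1 i) ∧ s.1.2.2 < s'.1.2.2 ∧
      ∃ m, m ≤ s'.1.2.2 ∧ (lpQ X A s.1.2.2 m s'.1.1 s'.1.2.1 ↔
        ¬ lpQ X A s.1.2.2 m (T k).1 (T k).2) := by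
    rintro k ⟨⟨d0, d1, n⟩, hs0, hs1, hsn⟩
    obtain ⟨δ0, δ1, m, h0, h1, h2⟩ := lp_step hC hE X hA n d0 d1 (T k).1 (T k).2
      (hdep n hsn d0 d1 hs0 hs1)
    obtain ⟨n', hn', hle⟩ := hI (max m (n + 1))
    refine ⟨⟨⟨δ0, δ1, n'⟩, sqeq_trans hs0 (sqeq_mono Set.subset_union_left h0),
      sqeq_trans hs1 (sqeq_mono Set.subset_union_left h1), hn'⟩, lp_sqeq_ini h0, lp_sqeq_ini h1,
      ?_, m, ?_, h2⟩
    · exact lt_of_lt_of_le (Nat.lt_succ_self n) ((le_max_right _ _).trans hle)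
    · exact (le_max_left _ _).trans hle
  choose f hf0 hf1 hf2 hf3 using step
  obtain ⟨n0, hn0, -⟩ := hI 0
  let s : ℕ → St := fun k => Nat.rec ⟨⟨d, d, n0⟩, sqeq_refl _ _, sqeq_refl _ _, hn0⟩
    (fun k s => f k s) k
  have hs : ∀ k, s (k + 1) = f k (s k) := fun k => rfl
  have hgrow : ∀ k, k ≤ (s k).1.2.2 := by
    intro k
    induction k with
    | zero => exact Nat.zero_le _
    | succ k ih =>
      have := hf2 k (s k)
      rw [← hs k] at this
      omega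
  have hmono : ∀ k l, k ≤ l → (s k).1.2.2 ≤ (s l).1.2.2 := by
    intro k l hkl
    induction l, hkl using Nat.le_induction with
    | base => exact le_rfl
    | succ l _ ih =>
      have := hf2 l (s l)
      rw [← hs l] at this
      omega
  have hst0 : ∀ k l, k ≤ l → ∀ i < (s k).1.2.2, (s k).1.1 i = (s l).1.1 i := by
    intro k l hkl
    induction l, hkl using Nat.le_induction with
    | base => exact fun i _ => rfl
    | succ l hkl ih =>
      intro i hi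
      rw [ih i hi, hs l]
      exact hf0 l (s l) i (lt_of_lt_of_le hi (hmono k l hkl))
  have hst1 : ∀ k l, k ≤ l → ∀ i < (s k).1.2.2, (s k).1.2.1 i = (s l).1.2.1 i := by
    intro k l hkl
    induction l, hkl using Nat.le_induction with
    | base => exact fun i _ => rfl
    | succ l hkl ih =>
      intro i hi
      rw [ih i hi, hs l]
      exact hf1 l (s l) i (lt_of_lt_of_le hi (hmono k l hkl))
  set e0 : ℕ → V := fun j => (s (j + 1)).1.1 j with he0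
  set e1 : ℕ → V := fun j => (s (j + 1)).1.2.1 j with he1
  have hl0 : ∀ k, ∀ i < (s k).1.2.2, (s k).1.1 i = e0 i := by
    intro k i hi
    rw [hst0 k (max k (i + 1)) (le_max_left _ _) i hi, he0]
    have h1 : i < (s (i + 1)).1.2.2 := lt_of_lt_of_le (Nat.lt_succ_self i) (hgrow (i + 1))
    exact (hst0 (i + 1) (max k (i + 1)) (le_max_right _ _) i h1).symm
  have hl1 : ∀ k, ∀ i < (s k).1.2.2, (s k).1.2.1 i = e1 i := by
    intro k i hi
    rw [hst1 k (max k (i + 1)) (le_max_left _ _) i hi, he1]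
    have h1 : i < (s (i + 1)).1.2.2 := lt_of_lt_of_le (Nat.lt_succ_self i) (hgrow (i + 1))
    exact (hst1 (i + 1) (max k (i + 1)) (le_max_right _ _) i h1).symm
  have hS0 : SqEq G A d e0 := by
    apply hT V G X A hA.countable
    intro n
    obtain ⟨g, hg, h⟩ := (s n).2.1
    refine ⟨g, hg, ?_⟩
    ext i
    show g • d i = e0 i
    rw [h i]
    exact hl0 n i (lt_of_lt_of_le i.2 (hgrow n))
  have hS1 : SqEq G A d e1 := by
    apply hT V G X A hA.countable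
    intro n
    obtain ⟨g, hg, h⟩ := (s n).2.2.1
    refine ⟨g, hg, ?_⟩
    ext i
    show g • d i = e1 i
    rw [h i]
    exact hl1 n i (lt_of_lt_of_le i.2 (hgrow n))
  obtain ⟨k, g, hg, hg0, hg1⟩ := hT0 e0 e1 (sqeq_mono (Set.empty_subset A) hS0)
    (sqeq_mono (Set.empty_subset A) hS1)
  obtain ⟨m, hm, hiff⟩ := hf3 k (s k)
  rw [← hs k] at hm hiff
  have hcong := lp_q_congr X A (hmono k (k + 1) (Nat.le_succ k)) hm (hl0 (k + 1)) (hl1 (k + 1))
  have htr := lp_q_tr hC X hA (s k).1.2.2 m hg hg0 hg1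
  rw [hcong, htr] at hiff
  by_cases hq : lpQ X A (s k).1.2.2 m (T k).1 (T k).2
  · exact (hiff.1 hq) hq
  · exact hq (hiff.2 hq)

theorem st_LP (hD1 : ST_DAT1) (hD2 : ST_DAT2) (hC : ST_CALC) (hE : ST_EXTS) (hT : ST_TYPS) :
    ST_LP := by
  intro V G _ _ X d hd A hA ι _ b
  by_contra hcon
  push Not at hcon
  obtain ⟨A', b', hdat⟩ := hD1 V G X A hA ι b d hcon
  let P : Set Ordinal.{0} := {α | ∃ (A : Set V) (b : ι → V) (d' : ℕ → V),
    SqEq G (∅ : Set V) d d' ∧ Dat X A b d' ∧ X.rk A b = α}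
  have hne : P.Nonempty := ⟨X.rk A' b', A', b', d, sqeq_refl _ _, hdat, rfl⟩
  obtain ⟨α, ⟨A0, b0, d', hdd', hdat0, hrk⟩, hmin⟩ := WellFounded.has_min Ordinal.lt_wf P hne
  have hsm : Small G d' := small_congr hdd' hd
  refine lp_diag hC hE hT X hdat0.fin d' hsm
    {n | ∃ b', Eqv G A0 b0 b' ∧ X.rk (A0 ∪ ini d' n) b' = X.rk A0 b0 ∧
      X.rk (A0 ∪ Set.range d') b' ≠ X.rk A0 b0} ?_ ?_
  · intro N
    obtain ⟨n, hn, h⟩ := hdat0.inf N
    exact ⟨n, h, hn⟩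
  · intro n hn e0 e1 h0 h1
    by_contra hno
    push Not at hno
    obtain ⟨A1, b1, d1, hs, hdat1, hlt⟩ := hD2 V G X A0 ι b0 d' e0 e1 n hdat0 hn h0 h1
      (fun δ0 δ1 hδ0 hδ1 => hno δ0 δ1 hδ0 hδ1)
    refine hmin (X.rk A1 b1) ⟨A1, b1, d1, ?_, hdat1, rfl⟩ ?_
    · exact sqeq_trans hdd' (sqeq_mono (Set.empty_subset A0) hs)
    · rw [← hrk]
      exact hlt

end Pool.Agent.Helper90.TS
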