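import Pool.Agent.Helper90.TS.Stmts

/-! # MP_79eb7e_lc: module ORB (orbits are closed) -/

set_option autoImplicit false

namespace Pool.Agent.Helper90.TS

variable {V G : Type} [Group G] [MulAction G V]

theorem orb_tr_inv {g : G} {Q : Set V} (h : tr g Q = Q) : tr g⁻¹ Q = Q := by
  ext x
  rw [mem_tr, inv_inv]
  constructor
  · intro hx
    have h1 : g • x ∈ tr g Q := by rw [h]; exact hx
    rw [mem_tr, inv_smul_smul] at h1
    exact h1
  · intro hx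
    have h1 : g • x ∈ tr g Q := ⟨x, hx, rfl⟩
    rw [h] at h1
    exact h1

theorem orb_acl_smul (hAc : ST_ACLB) (X : Ctx V G) {A : Set V} (hA : A.Finite) {h : G}
    (hh : h ∈ Fx G A) {e : V} (he : e ∈ acl G A) : h • e ∈ acl G A := by
  have h1 := (hAc V G X A hA.countable).2.2.2.1 h
  rw [tr_fx hh] at h1
  rw [h1]
  exact ⟨e, he, rfl⟩

/-- the approximation property depends only on the values on `d` and `acl A` -/
theorem orb_apx_congr {Q A : Set V} {d : ℕ → V} {h h' : G} (hA : Apx G Q A d h)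
    (h0 : ∀ i, h' • d i = h • d i) (h1 : ∀ e ∈ acl G A, h' • e = h • e) : Apx G Q A d h' := by
  intro n e he hef
  obtain ⟨g, hg, hgQ, hg1, hg2⟩ := hA n e he hef
  refine ⟨g, hg, hgQ, ?_, ?_⟩
  · intro i hi
    rw [hg1 i hi, h0 i]
  · intro x hx
    rw [hg2 x hx, h1 x (he hx)]

theorem orb_apx_inv (hAc : ST_ACLB) (X : Ctx V G) {Q A : Set V} (hAf : A.Finite) {d d' : ℕ → V}
    {h : G} (hh : h ∈ Fx G A) (hd : ∀ i, h • d i = d' i) (hA : Apx G Q A d h) :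
    Apx G Q A d' h⁻¹ := by
  intro n e he hef
  obtain ⟨g, hg, hgQ, hg1, hg2⟩ := hA n (tr h⁻¹ e) (by
    rintro x ⟨y, hy, rfl⟩
    exact orb_acl_smul hAc X hAf (inv_mem hh) (he hy)) (hef.image _)
  refine ⟨g⁻¹, inv_mem hg, orb_tr_inv hgQ, ?_, ?_⟩
  · intro i hi
    have h1 : h⁻¹ • d' i = d i := by rw [← hd i, inv_smul_smul]
    rw [h1, inv_smul_eq_iff, hg1 i hi, hd i]
  · intro x hx
    have h1 := hg2 (h⁻¹ • x) ⟨x, hx, rfl⟩
    rw [smul_inv_smul] at h1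
    rw [inv_smul_eq_iff, h1]

/-- FORTH for finite sets -/
theorem orb_forth (hF : ST_FORTH) (X : Ctx V G) {d : ℕ → V} {Q A : Set V} {h : G} (hsm : Small G d)
    (hAf : A.Finite) (hac : acl G A ⊆ Q) (hdQ : Set.range d ⊆ Q) (hh : h ∈ Fx G A)
    (hhd : ∀ i, h • d i ∈ Q) (hH : Hmg G Q A) (hA : Apx G Q A d h) {S : Set V} (hSf : S.Finite)
    (hSQ : S ⊆ Q) (hhS : ∀ x ∈ S, h • x ∈ Q) {x : V} (hx : x ∈ Q) :
    ∃ h' ∈ Fx G A, (∀ i, h' • d i = h • d i) ∧ (∀ e ∈ acl G A, h' • e = h • e) ∧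
      (∀ y ∈ S, h' • y = h • y) ∧ h' • x ∈ Q := by
  obtain ⟨k, b, hb⟩ := hSf.fin_embedding
  obtain ⟨h', h1, h2, h3, h4, h5⟩ := hF V G X d Q A h hsm hAf hac hdQ hh hhd hH hA k b x
    (by rw [hb]; exact hSQ) (by
      rintro _ ⟨i, rfl⟩
      exact hhS (b i) (by rw [← hb]; exact ⟨i, rfl⟩)) hx
  refine ⟨h', h1, h2, h3, ?_, h5⟩
  intro y hy
  rw [← hb] at hy
  obtain ⟨i, rfl⟩ := hy
  exact congrFun h4 i

theorem st_ORB (hI : ST_INIT) (hF : ST_FORTH) (hT : ST_TYPS) (hAc : ST_ACLB) : ST_ORB := by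
  intro V G _ _ X d d' Q A hsm hQc hAf hac hdQ hH happ
  obtain ⟨h0, hh0, hh0d, hApx0⟩ := hI V G X d d' Q A hAf happ
  have hd'Q : ∀ i, d' i ∈ Q := by
    intro i
    obtain ⟨g, -, hgQ, hgd⟩ := happ (i + 1)
    rw [← hgd i (Nat.lt_succ_self i), ← hgQ]
    exact ⟨d i, hdQ ⟨i, rfl⟩, rfl⟩
  have hsm' : Small G d' := small_congr
    ⟨h0, by rw [fx_empty]; exact Subgroup.mem_top _, hh0d⟩ hsm
  have hd'R : Set.range d' ⊆ Q := by
    rintro _ ⟨i, rfl⟩
    exact hd'Q i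
  obtain ⟨q, hq⟩ := hQc.exists_eq_range ⟨d 0, hdQ ⟨0, rfl⟩⟩
  have hqQ : ∀ i, q i ∈ Q := fun i => by rw [hq]; exact ⟨i, rfl⟩
  let St : Type := {p : G × Set V // p.1 ∈ Fx G A ∧ (∀ i, p.1 • d i = d' i) ∧
    (∀ e ∈ acl G A, p.1 • e = h0 • e) ∧ p.2.Finite ∧ p.2 ⊆ Q ∧ ∀ x ∈ p.2, p.1 • x ∈ Q}
  have step : ∀ (n : ℕ) (s : St), ∃ s' : St, s.1.2 ⊆ s'.1.2 ∧
      (∀ x ∈ s.1.2, s'.1.1 • x = s.1.1 • x) ∧ q n ∈ s'.1.2 ∧
      ∃ x ∈ s'.1.2, s'.1.1 • x = q n := by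
    rintro n ⟨⟨h, S⟩, hh, hd, hacl, hSf, hSQ, hhS⟩
    have hA1 : Apx G Q A d h := orb_apx_congr hApx0 (fun i => by rw [hd i, hh0d i]) hacl
    obtain ⟨h1, a1, a2, a3, a4, a5⟩ := orb_forth hF X hsm hAf hac hdQ hh
      (fun i => by rw [hd i]; exact hd'Q i) hH hA1 hSf hSQ hhS (hqQ n)
    have hd1 : ∀ i, h1 • d i = d' i := fun i => by rw [a2 i]; exact hd i
    have hacl1 : ∀ e ∈ acl G A, h1 • e = h0 • e := fun e he => by rw [a3 e he]; exact hacl e he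
    have hA2 : Apx G Q A d h1 := orb_apx_congr hApx0 (fun i => by rw [hd1 i, hh0d i]) hacl1
    have hA3 : Apx G Q A d' h1⁻¹ := orb_apx_inv hAc X hAf a1 hd1 hA2
    set S1 : Set V := insert (q n) S with hS1
    have hS1f : S1.Finite := hSf.insert _
    have hS1Q : S1 ⊆ Q := by
      rintro x (rfl | hx)
      · exact hqQ n
      · exact hSQ hx
    have hhS1 : ∀ x ∈ S1, h1 • x ∈ Q := by
      rintro x (rfl | hx)
      · exact a5
      · rw [a4 x hx]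
        exact hhS x hx
    obtain ⟨h2, b1, b2, b3, b4, b5⟩ := orb_forth hF X (S := tr h1 S1) hsm' hAf hac hd'R (inv_mem a1)
      (fun i => by rw [← hd1 i, inv_smul_smul]; exact hdQ ⟨i, rfl⟩) hH hA3 (hS1f.image _)
      (by
        rintro _ ⟨x, hx, rfl⟩
        exact hhS1 x hx)
      (by
        rintro _ ⟨x, hx, rfl⟩
        show h1⁻¹ • h1 • x ∈ Q
        rw [inv_smul_smul]
        exact hS1Q hx) (hqQ n)
    have c1 : ∀ x ∈ S1, h2⁻¹ • x = h1 • x := by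
      intro x hx
      rw [inv_smul_eq_iff, b4 (h1 • x) ⟨x, hx, rfl⟩, inv_smul_smul]
    have c2 : h2⁻¹ • (h2 • q n) = q n := inv_smul_smul _ _
    refine ⟨⟨⟨h2⁻¹, insert (h2 • q n) S1⟩, inv_mem b1, ?_, ?_, hS1f.insert _, ?_, ?_⟩, ?_, ?_, ?_,
      h2 • q n, Set.mem_insert _ _, c2⟩
    · intro i
      show h2⁻¹ • d i = d' i
      rw [inv_smul_eq_iff, b2 i, ← hd1 i, inv_smul_smul]
    · intro e he
      show h2⁻¹ • e = h0 • e
      rw [← hacl1 e he, inv_smul_eq_iff, b3 (h1 • e) (orb_acl_smul hAc X hAf a1 he), inv_smul_smul]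
    · rintro x (rfl | hx)
      · exact b5
      · exact hS1Q hx
    · rintro x (rfl | hx)
      · show h2⁻¹ • (h2 • q n) ∈ Q
        rw [c2]
        exact hqQ n
      · show h2⁻¹ • x ∈ Q
        rw [c1 x hx]
        exact hhS1 x hx
    · intro x hx
      exact Or.inr (Or.inr hx)
    · intro x hx
      show h2⁻¹ • x = h • x
      rw [c1 x (Or.inr hx), a4 x hx]
    · exact Or.inr (Or.inl rfl)
  choose f hf1 hf2 hf3 hf4 using step
  let s : ℕ → St := fun k => Nat.rec ⟨⟨h0, ∅⟩, hh0, hh0d, fun _ _ => rfl, Set.finite_empty,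
    Set.empty_subset _, fun x hx => hx.elim⟩ (fun k s => f k s) k
  have hs : ∀ k, s (k + 1) = f k (s k) := fun k => rfl
  have hsub : ∀ k l, k ≤ l → (s k).1.2 ⊆ (s l).1.2 := by
    intro k l hkl
    induction l, hkl using Nat.le_induction with
    | base => exact subset_rfl
    | succ l _ ih =>
      refine ih.trans ?_
      rw [hs l]
      exact hf1 l (s l)
  have hval : ∀ k l, k ≤ l → ∀ x ∈ (s k).1.2, (s l).1.1 • x = (s k).1.1 • x := by
    intro k l hkl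
    induction l, hkl using Nat.le_induction with
    | base => exact fun x _ => rfl
    | succ l hkl ih =>
      intro x hx
      rw [hs l, hf2 l (s l) x (hsub k l hkl hx)]
      exact ih x hx
  have hmem : ∀ i, q i ∈ (s (i + 1)).1.2 := fun i => by
    rw [hs i]
    exact hf3 i (s i)
  obtain ⟨g, hg, hgq⟩ := hT V G X A hAf.countable q (fun i => (s (i + 1)).1.1 • q i) (by
    intro n
    refine ⟨(s n).1.1, (s n).2.1, ?_⟩
    ext i
    exact hval (i + 1) n (by omega) (q i) (hmem i))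
  refine ⟨g, hg, ?_, ?_⟩
  · ext y
    constructor
    · rintro ⟨x, hx, rfl⟩
      rw [hq] at hx
      obtain ⟨i, rfl⟩ := hx
      show g • q i ∈ Q
      rw [hgq i]
      exact (s (i + 1)).2.2.2.2.2.2 (q i) (hmem i)
    · intro hy
      rw [hq] at hy
      obtain ⟨n, rfl⟩ := hy
      obtain ⟨x, hx, hxn⟩ := hf4 n (s n)
      rw [← hs n] at hx hxn
      have hxQ : x ∈ Q := (s (n + 1)).2.2.2.2.2.1 hx
      rw [hq] at hxQ
      obtain ⟨j, rfl⟩ := hxQ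
      refine ⟨q j, hqQ j, ?_⟩
      show g • q j = q n
      rw [hgq j, ← hxn]
      show (s (j + 1)).1.1 • q j = (s (n + 1)).1.1 • q j
      rw [← hval (j + 1) (max (j + 1) (n + 1)) (le_max_left _ _) (q j) (hmem j),
        ← hval (n + 1) (max (j + 1) (n + 1)) (le_max_right _ _) (q j) hx]
  · intro i
    have h1 : d i ∈ Q := hdQ ⟨i, rfl⟩
    rw [hq] at h1
    obtain ⟨j, hj⟩ := h1
    rw [← hj, hgq j]
    show (s (j + 1)).1.1 • q j = d' i
    rw [hj]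
    exact (s (j + 1)).2.2.1 i

end Pool.Agent.Helper90.TS
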